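import Mathlib

set_option autoImplicit false
open scoped Pointwise

namespace Pool.Agent.Results.MP_59868e_an.NoCancel

/-- `A ∼ B`: equidecomposable by translations with all pieces in `𝒜`. -/
def Equidec {X : Type} [AddCommGroup X] (𝒜 : Set (Set X)) (A B : Set X) : Prop :=
  ∃ (k : ℕ) (P : Fin k → Set X) (g : Fin k → X),
    (∀ i, P i ∈ 𝒜) ∧ (∀ i, g i +ᵥ P i ∈ 𝒜) ∧
    Pairwise (fun i j => Disjoint (P i) (P j)) ∧ (⋃ i, P i) = A ∧
    Pairwise (fun i j => Disjoint (g i +ᵥ P i) (g j +ᵥ P j)) ∧ (⋃ i, g i +ᵥ P i) = B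

/-- `n[A] = n[B]`: `A × {0, …, n-1}` and `B × {0, …, n-1}` are equidecomposable in `X × ℕ`. -/
def MultEq {X : Type} [AddCommGroup X] (𝒜 : Set (Set X)) (n : ℕ) (A B : Set X) : Prop :=
  ∃ (k : ℕ) (C : Fin k → Set X) (g : Fin k → X) (j m : Fin k → ℕ),
    (∀ i, C i ∈ 𝒜) ∧ (∀ i, g i +ᵥ C i ∈ 𝒜) ∧
    Pairwise (fun a b => Disjoint (C a ×ˢ ({j a} : Set ℕ)) (C b ×ˢ ({j b} : Set ℕ))) ∧
    (⋃ i, C i ×ˢ ({j i} : Set ℕ)) = A ×ˢ Set.Iio n ∧
    Pairwise (fun a b =>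
      Disjoint ((g a +ᵥ C a) ×ˢ ({m a} : Set ℕ)) ((g b +ᵥ C b) ×ˢ ({m b} : Set ℕ))) ∧
    (⋃ i, (g i +ᵥ C i) ×ˢ ({m i} : Set ℕ)) = B ×ˢ Set.Iio n

def R (N : ℕ) (u w : ℤ) : Prop := u = w ∨ (N ≤ u ∧ N ≤ w) ∨ (u ≤ -N ∧ w ≤ -N)

lemma R_mono {N M : ℕ} {u w : ℤ} (h : R M u w) (hNM : N ≤ M) : R N u w := by
  unfold R at *; omega

lemma R_symm {N : ℕ} {u w : ℤ} (h : R N u w) : R N w u := by
  unfold R at *; omega

lemma shift_eq (σ : ℤ → ℤ) (b d t : ℤ) (N : ℤ) (hN : b ≤ N)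
    (h : Set.BijOn σ (Set.Ici b) (Set.Ici d)) (ht : ∀ v, N ≤ v → σ v = v + t) : t = d - b := by
  have h0 : d ≤ N + t := by
    have := h.mapsTo (show N ∈ Set.Ici b from hN)
    rwa [ht N le_rfl] at this
  have h1 : Set.BijOn σ (Finset.Ico b N) (Finset.Ico d (N + t)) := by
    simp only [Finset.coe_Ico]
    refine ⟨fun v hv => ⟨h.mapsTo hv.1, ?_⟩, h.injOn.mono fun v hv => hv.1, fun w hw => ?_⟩
    · by_contra hc
      have h2 : σ (σ v - t) = σ v := by rw [ht _ (by omega)]; ring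
      have h3 := h.injOn (show σ v - t ∈ Set.Ici b by simp only [Set.mem_Ici]; omega) hv.1 h2
      have := hv.2
      omega
    · obtain ⟨v, hv, rfl⟩ := h.surjOn hw.1
      refine ⟨v, ⟨hv, ?_⟩, rfl⟩
      by_contra hc
      have := hw.2
      rw [ht v (by omega)] at this
      omega
  have h2 := h1.finsetCard_eq
  simp only [Int.card_Ico] at h2
  omega

lemma row {k : ℕ} (p : Fin k → Set (ℤ × ℤ)) (s t : Fin k → ℤ) (a b c d : ℤ) (N : ℕ)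
    (hpar : ∀ i, (s i + t i) % 2 = 0) (hs : ∀ i, |s i| ≤ N) (ht : ∀ i, |t i| ≤ N)
    (ha : |a| ≤ N) (hb : |b| ≤ N) (hc : |c| ≤ N) (hd : |d| ≤ N)
    (hR : ∀ i u v u' v', (u + v) % 2 = 0 → (u' + v') % 2 = 0 → R N u u' → R N v v' →
      (u, v) ∈ p i → (u', v') ∈ p i)
    (h1 : ∀ i j x, x ∈ p i → x ∈ p j → i = j)
    (h2 : ∀ u v, (∃ i, (u, v) ∈ p i) ↔ a ≤ u ∧ b ≤ v ∧ (u + v) % 2 = 0)
    (h3 : ∀ i j u v, (u - s i, v - t i) ∈ p i → (u - s j, v - t j) ∈ p j → i = j)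
    (h4 : ∀ u v, (∃ i, (u - s i, v - t i) ∈ p i) ↔ c ≤ u ∧ d ≤ v ∧ (u + v) % 2 = 0)
    (i0 : Fin k) (hi0 : ((N : ℤ), (N : ℤ)) ∈ p i0) : t i0 = d - b := by
  rw [abs_le] at ha hb hc hd
  have hex : ∀ v, ∃ i, b ≤ v → (v + 6 * N, v) ∈ p i := by
    intro v
    by_cases hv : b ≤ v
    · obtain ⟨i, hi⟩ := (h2 (v + 6 * N) v).mpr ⟨by omega, hv, by omega⟩
      exact ⟨i, fun _ => hi⟩
    · exact ⟨i0, fun h => absurd h hv⟩
  choose ρ hρ using hex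
  refine shift_eq (fun v => v + t (ρ v)) b d (t i0) N hb.2 ⟨?_, ?_, ?_⟩ ?_
  · intro v hv
    have := (h4 (v + 6 * N + s (ρ v)) (v + t (ρ v))).mp ⟨ρ v, by simpa using hρ v hv⟩
    exact this.2.1
  · intro v hv v' hv' h
    simp only at h
    have a1 := abs_le.mp (hs (ρ v))
    have a2 := abs_le.mp (hs (ρ v'))
    have a3 := hpar (ρ v)
    have a4 := hpar (ρ v')
    have a5 : b ≤ v := hv
    have a6 : b ≤ v' := hv'
    have e : ρ v = ρ v' := by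
      refine h3 _ _ (v' + 6 * N + s (ρ v')) (v' + t (ρ v')) ?_ (by simpa using hρ v' hv')
      refine hR _ _ _ _ _ (by omega) (by omega) ?_ ?_ (hρ v hv)
      · unfold R; omega
      · unfold R; omega
    rw [e] at h
    omega
  · intro w hw
    have a5 : d ≤ w := hw
    obtain ⟨i, hi⟩ := (h4 (w + 6 * N) w).mpr ⟨by omega, hw, by omega⟩
    have a1 := abs_le.mp (hs i)
    have a2 := abs_le.mp (ht i)
    have a3 := hpar i
    have hv : b ≤ w - t i := ((h2 _ _).mp ⟨i, hi⟩).2.1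
    refine ⟨w - t i, hv, ?_⟩
    have e : ρ (w - t i) = i := by
      refine h1 _ _ _ (hρ _ hv) (hR _ _ _ _ _ (by omega) (by omega) ?_ ?_ hi)
      · unfold R; omega
      · unfold R; omega
    simp [e]
  · intro v hv
    have e : ρ v = i0 := by
      refine h1 _ _ _ (hρ _ (by omega)) (hR _ _ _ _ _ (by omega) (by omega) ?_ ?_ hi0)
      · unfold R; omega
      · unfold R; omega
    simp [e]

section general
variable {X : Type} [AddCommGroup X] (Φ : ℤ × ℤ →+ X)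

def Alg : Set (Set X) := {S | ∀ x : X, ∃ N : ℕ, ∀ p q : ℤ × ℤ, (p.1 + p.2) % 2 = 0 →
  (q.1 + q.2) % 2 = 0 → R N p.1 q.1 → R N p.2 q.2 → x + Φ p ∈ S → x + Φ q ∈ S}

lemma alg_vadd (g : X) (S : Set X) (h : S ∈ Alg Φ) : g +ᵥ S ∈ Alg Φ := by
  intro x
  obtain ⟨N, hN⟩ := h (-g + x)
  refine ⟨N, fun p q a b c d e => ?_⟩
  rw [Set.mem_vadd_set_iff_neg_vadd_mem, vadd_eq_add, ← add_assoc] at e ⊢
  exact hN p q a b c d e

lemma alg_image (hΦ : Function.Injective Φ) (S : Set (ℤ × ℤ))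
    (hS : ∀ p q : ℤ × ℤ, (p.1 + p.2) % 2 = (q.1 + q.2) % 2 → R 3 p.1 q.1 → R 3 p.2 q.2 →
      p ∈ S → q ∈ S) : Φ '' S ∈ Alg Φ := by
  intro x
  by_cases hx : ∃ x0, x = Φ x0
  · obtain ⟨x0, rfl⟩ := hx
    refine ⟨3 + x0.1.natAbs + x0.2.natAbs, fun p q a b c d e => ?_⟩
    rw [← map_add, hΦ.mem_set_image] at e ⊢
    refine hS _ _ ?_ ?_ ?_ e
    · simp only [Prod.fst_add, Prod.snd_add]; omega
    · simp only [Prod.fst_add]; unfold R at *; omega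
    · simp only [Prod.snd_add]; unfold R at *; omega
  · refine ⟨0, fun p q _ _ _ _ e => absurd ?_ hx⟩
    obtain ⟨y, -, hy⟩ := e
    exact ⟨y - p, by rw [map_sub, hy]; abel⟩

def K (a : ℤ) : Set (ℤ × ℤ) := {p | a ≤ p.1 ∧ 0 ≤ p.2 ∧ (p.1 + p.2) % 2 = 0}
def L : Set (ℤ × ℤ) := {p | p.1 = 0 ∧ 0 ≤ p.2 ∧ (p.1 + p.2) % 2 = 0}

lemma vadd_image (γ : ℤ × ℤ) (S : Set (ℤ × ℤ)) : Φ γ +ᵥ Φ '' S = Φ '' {p | p - γ ∈ S} := by
  ext x
  simp only [Set.mem_vadd_set, Set.mem_image, vadd_eq_add, Set.mem_ofPred_eq]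
  constructor
  · rintro ⟨_, ⟨p, hp, rfl⟩, rfl⟩
    exact ⟨γ + p, by simpa using hp, by simp⟩
  · rintro ⟨p, hp, rfl⟩
    exact ⟨_, ⟨p - γ, hp, rfl⟩, by simp⟩

lemma not_equi (hΦ : Function.Injective Φ) : ¬ Equidec (Alg Φ) (Φ '' K 0) (Φ '' K 1) := by
  rintro ⟨k, P, g, hP, -, h1, h2, h3, h4⟩
  have hγ : ∀ i, ∃ γ : ℤ × ℤ, (γ.1 + γ.2) % 2 = 0 ∧ g i +ᵥ P i = Φ γ +ᵥ P i := by
    intro i
    rcases (P i).eq_empty_or_nonempty with h | ⟨x, hx⟩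
    · exact ⟨0, by simp, by simp [h]⟩
    · have a1 : x ∈ Φ '' K 0 := h2 ▸ Set.mem_iUnion.mpr ⟨i, hx⟩
      have a2 : g i + x ∈ Φ '' K 1 := h4 ▸ Set.mem_iUnion.mpr ⟨i, x, hx, rfl⟩
      obtain ⟨p, hp, rfl⟩ := a1
      obtain ⟨q, hq, e⟩ := a2
      refine ⟨q - p, ?_, by rw [map_sub, e]; simp⟩
      have := hp.2.2
      have := hq.2.2
      simp only [Prod.fst_sub, Prod.snd_sub]; omega
  choose γ hγ1 hγ2 using hγ
  choose M hM using fun i => hP i 0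
  simp only [zero_add] at hM
  simp only [hγ2] at h3 h4
  obtain ⟨N, hN⟩ : ∃ N : ℕ, 1 ≤ N ∧ ∀ i, M i ≤ N ∧ |(γ i).1| ≤ N ∧ |(γ i).2| ≤ N := by
    obtain ⟨N, hN⟩ := (Set.finite_range
      fun i => M i + (γ i).1.natAbs + (γ i).2.natAbs).bddAbove
    refine ⟨N + 1, by omega, fun i => ?_⟩
    have : M i + (γ i).1.natAbs + (γ i).2.natAbs ≤ N := hN ⟨i, rfl⟩
    simp only [abs_le]
    omega
  have b1 : ∀ i j x, Φ x ∈ P i → Φ x ∈ P j → i = j := by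
    intro i j x a b
    by_contra hc
    exact Set.disjoint_left.mp (h1 hc) a b
  have b2 : ∀ x, (∃ i, Φ x ∈ P i) ↔ x ∈ K 0 := by
    intro x
    rw [← Set.mem_iUnion, h2, hΦ.mem_set_image]
  have e : ∀ i x, Φ x ∈ Φ (γ i) +ᵥ P i ↔ Φ (x - γ i) ∈ P i := by
    intro i x
    rw [Set.mem_vadd_set_iff_neg_vadd_mem, vadd_eq_add, map_sub, neg_add_eq_sub]
  have b3 : ∀ i j x, Φ (x - γ i) ∈ P i → Φ (x - γ j) ∈ P j → i = j := by
    intro i j x a b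
    by_contra hc
    exact Set.disjoint_left.mp (h3 hc) ((e _ _).mpr a) ((e _ _).mpr b)
  have b4 : ∀ x, (∃ i, Φ (x - γ i) ∈ P i) ↔ x ∈ K 1 := by
    intro x
    simp only [← e]
    rw [← Set.mem_iUnion, h4, hΦ.mem_set_image]
  obtain ⟨i0, hi0⟩ := (b2 (N, N)).mpr ⟨by simp, by simp, by simp only; omega⟩
  have hN1 : |(1 : ℤ)| ≤ N := by simp only [abs_one]; omega
  have hN0 : |(0 : ℤ)| ≤ N := by simp
  have r1 := row (fun i => {x | Φ x ∈ P i}) (fun i => (γ i).1) (fun i => (γ i).2) 0 0 1 0 N hγ1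
    (fun i => (hN.2 i).2.1) (fun i => (hN.2 i).2.2) hN0 hN0 hN1 hN0
    (fun i u v u' v' a b c d => hM i (u, v) (u', v') a b (R_mono c (hN.2 i).1)
      (R_mono d (hN.2 i).1))
    b1 (fun u v => b2 (u, v)) (fun i j u v => b3 i j (u, v)) (fun u v => b4 (u, v)) i0 hi0
  have r2 := row (fun i => {x | Φ x.swap ∈ P i}) (fun i => (γ i).2) (fun i => (γ i).1) 0 0 0 1 N
    (fun i => by have := hγ1 i; omega)
    (fun i => (hN.2 i).2.2) (fun i => (hN.2 i).2.1) hN0 hN0 hN0 hN1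
    (fun i u v u' v' a b c d => hM i (v, u) (v', u') (by simp only; omega) (by simp only; omega)
      (R_mono d (hN.2 i).1) (R_mono c (hN.2 i).1))
    (fun i j x => b1 i j x.swap)
    (fun u v => (b2 (v, u)).trans (by simp only [K, Set.mem_ofPred_eq]; omega))
    (fun i j u v => b3 i j (v, u))
    (fun u v => (b4 (v, u)).trans (by simp only [K, Set.mem_ofPred_eq]; omega)) i0 hi0
  have := hγ1 i0
  omega

lemma mult_eq (hΦ : Function.Injective Φ) : MultEq (Alg Φ) 2 (Φ '' K 0) (Φ '' K 1) := by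
  have hC : ∀ i : Fin 3, Φ '' (![K 0, K 1, L] i) ∈ Alg Φ := by
    intro i
    apply alg_image Φ hΦ
    fin_cases i <;> simp only [Fin.zero_eta, Fin.mk_one, Fin.reduceFinMk, Matrix.cons_val, K, L,
      R, Set.mem_ofPred_eq] <;> omega
  refine ⟨3, fun i => Φ '' (![K 0, K 1, L] i), fun i => Φ (![(2, 0), (0, 0), (1, 1)] i),
    ![0, 1, 1], ![0, 1, 0], hC, fun i => alg_vadd Φ _ _ (hC i), ?_, ?_, ?_, ?_⟩
  · intro a b hab
    rw [Set.disjoint_left]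
    rintro ⟨x, n⟩ ⟨⟨p, hp, rfl⟩, h1⟩ ⟨h2, h3⟩
    rw [hΦ.mem_set_image] at h2
    fin_cases a <;> fin_cases b <;> first
      | exact absurd rfl hab
      | (simp only [Fin.zero_eta, Fin.mk_one, Fin.reduceFinMk, Matrix.cons_val, K, L,
          Set.mem_ofPred_eq, Set.mem_singleton_iff] at hp h1 h2 h3; omega)
  · ext ⟨x, n⟩
    simp only [Set.mem_iUnion, Set.mem_prod, Set.mem_singleton_iff, Set.mem_Iio]
    constructor
    · rintro ⟨i, ⟨p, hp, rfl⟩, h1⟩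
      rw [hΦ.mem_set_image]
      fin_cases i <;> simp only [Fin.zero_eta, Fin.mk_one, Fin.reduceFinMk, Matrix.cons_val, K, L,
        Set.mem_ofPred_eq] at hp h1 ⊢ <;> omega
    · rintro ⟨⟨p, hp, rfl⟩, h1⟩
      simp only [hΦ.mem_set_image, Fin.exists_fin_succ, Matrix.cons_val_zero, Matrix.cons_val_succ,
        K, L, Set.mem_ofPred_eq, IsEmpty.exists_iff, or_false] at hp ⊢
      omega
  · intro a b hab
    simp only [vadd_image]
    rw [Set.disjoint_left]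
    rintro ⟨x, n⟩ ⟨⟨p, hp, rfl⟩, h1⟩ ⟨h2, h3⟩
    rw [hΦ.mem_set_image] at h2
    fin_cases a <;> fin_cases b <;> first
      | exact absurd rfl hab
      | (simp only [Fin.zero_eta, Fin.mk_one, Fin.reduceFinMk, Matrix.cons_val, K, L,
          Set.mem_ofPred_eq, Set.mem_singleton_iff, Prod.fst_sub, Prod.snd_sub] at hp h1 h2 h3
         omega)
  · ext ⟨x, n⟩
    simp only [vadd_image, Set.mem_iUnion, Set.mem_prod, Set.mem_singleton_iff, Set.mem_Iio]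
    constructor
    · rintro ⟨i, ⟨p, hp, rfl⟩, h1⟩
      rw [hΦ.mem_set_image]
      fin_cases i <;> simp only [Fin.zero_eta, Fin.mk_one, Fin.reduceFinMk, Matrix.cons_val, K, L,
        Set.mem_ofPred_eq, Prod.fst_sub, Prod.snd_sub] at hp h1 ⊢ <;> omega
    · rintro ⟨⟨p, hp, rfl⟩, h1⟩
      simp only [hΦ.mem_set_image, Fin.exists_fin_succ, Matrix.cons_val_zero, Matrix.cons_val_succ,
        K, L, Set.mem_ofPred_eq, IsEmpty.exists_iff, or_false, Prod.fst_sub, Prod.snd_sub] at hp ⊢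
      omega

end general

noncomputable def Φ0 : ℤ × ℤ →+ UnitAddCircle :=
  (QuotientAddGroup.mk' (AddSubgroup.zmultiples (1 : ℝ))).comp
    (AddMonoidHom.coprod (zmultiplesHom ℝ (Real.sqrt 2)) (zmultiplesHom ℝ (Real.sqrt 3)))

lemma Φ0_inj : Function.Injective Φ0 := by
  rw [injective_iff_map_eq_zero]
  rintro ⟨m, n⟩ h
  have h1 : ∃ k : ℤ, (k : ℝ) = m * Real.sqrt 2 + n * Real.sqrt 3 := by
    have := (QuotientAddGroup.eq_zero_iff _).mp h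
    simpa [AddSubgroup.mem_zmultiples_iff] using this
  obtain ⟨k, hk⟩ := h1
  have i2 := irrational_sqrt_two
  have i3 : Irrational (Real.sqrt 3) := by
    simpa using Nat.Prime.irrational_sqrt (show Nat.Prime 3 by norm_num)
  have s2 : Real.sqrt 2 ^ 2 = 2 := Real.sq_sqrt (by norm_num)
  have s3 : Real.sqrt 3 ^ 2 = 3 := Real.sq_sqrt (by norm_num)
  have h2 : (2 * k * m : ℤ) * Real.sqrt 2 = (k ^ 2 + 2 * m ^ 2 - 3 * n ^ 2 : ℤ) := by
    push_cast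
    have : (n : ℝ) * Real.sqrt 3 = k - m * Real.sqrt 2 := by linarith
    have h3 : (n : ℝ) ^ 2 * 3 = (k - m * Real.sqrt 2) ^ 2 := by rw [← this, mul_pow, s3]
    linear_combination h3 + (m : ℝ) ^ 2 * s2
  have h3 : 2 * k * m = 0 := by
    by_contra hc
    exact (i2.intCast_mul hc).ne_int _ h2
  rcases mul_eq_zero.mp h3 with h4 | h4
  · have hk0 : k = 0 := by omega
    subst hk0
    by_cases hn : n = 0
    · subst hn
      have : (m : ℝ) = 0 := by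
        have h5 : (m : ℝ) * Real.sqrt 2 = 0 := by simpa using hk.symm
        exact (mul_eq_zero.mp h5).resolve_right (by positivity)
      simpa using this
    · exfalso
      have i6 : Irrational (Real.sqrt 2 * Real.sqrt 3) := by
        rw [← Real.sqrt_mul (by norm_num)]
        norm_num
      refine (i6.intCast_mul hn).ne_int (-2 * m) ?_
      push_cast at hk ⊢
      linear_combination (-Real.sqrt 2) * hk - (m : ℝ) * s2
  · subst h4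
    by_cases hn : n = 0
    · simp [hn]
    · exfalso
      refine (i3.intCast_mul hn).ne_int k ?_
      simpa using hk.symm

theorem result : ∃ (𝒜 : Set (Set UnitAddCircle)) (A B : Set UnitAddCircle),
    Set.univ ∈ 𝒜 ∧ (∀ S ∈ 𝒜, ∀ T ∈ 𝒜, S ∪ T ∈ 𝒜) ∧ (∀ S ∈ 𝒜, Sᶜ ∈ 𝒜) ∧
    (∀ S ∈ 𝒜, ∀ g : UnitAddCircle, g +ᵥ S ∈ 𝒜) ∧
    A ∈ 𝒜 ∧ B ∈ 𝒜 ∧ MultEq 𝒜 2 A B ∧ ¬ Equidec 𝒜 A B := by
  refine ⟨Alg Φ0, Φ0 '' K 0, Φ0 '' K 1, fun x => ⟨0, fun _ _ _ _ _ _ _ => trivial⟩, ?_, ?_,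
    fun S hS g => alg_vadd Φ0 g S hS, ?_, ?_, mult_eq Φ0 Φ0_inj, not_equi Φ0 Φ0_inj⟩
  · intro S hS T hT x
    obtain ⟨N, hN⟩ := hS x
    obtain ⟨M, hM⟩ := hT x
    refine ⟨N + M, fun p q a b c d e => e.imp ?_ ?_⟩
    · exact hN p q a b (R_mono c (by omega)) (R_mono d (by omega))
    · exact hM p q a b (R_mono c (by omega)) (R_mono d (by omega))
  · intro S hS x
    obtain ⟨N, hN⟩ := hS x
    exact ⟨N, fun p q a b c d e f => e (hN q p b a (R_symm c) (R_symm d) f)⟩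
  · apply alg_image Φ0 Φ0_inj
    simp only [K, R, Set.mem_ofPred_eq]; omega
  · apply alg_image Φ0 Φ0_inj
    simp only [K, R, Set.mem_ofPred_eq]; omega

end Pool.Agent.Results.MP_59868e_an.NoCancel
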